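import Mathlib

/-!
Two finite chains of subspaces of a vector space have a common adapted basis.
(Theorem W of helper5, section 5.4.)
-/

namespace ResW

open Submodule

variable {k U : Type*} [Field k] [AddCommGroup U] [Module k U]

/-- extension step (section 5.4): relative version -/
theorem extend_adapted (X : Submodule k U) (β : Set U)
    (hβ : LinearIndepOn k id β) (hspan : span k β = X)
    (C : Finset (Submodule k U)) (hC : IsChain (· ≤ ·) (C : Set (Submodule k U)))
    (had : ∀ W ∈ C, W ⊓ X ≤ span k (β ∩ W)) :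
    ∃ β' : Set U, β ⊆ β' ∧ LinearIndepOn k id β' ∧ span k β' = X ⊔ C.sup id ∧
      ∀ W ∈ C, W ≤ span k (β' ∩ W) := by
  classical
  induction' hn : C.card using Nat.strong_induction_on with n ih generalizing C
  rcases C.eq_empty_or_nonempty with rfl | hne
  · exact ⟨β, subset_rfl, hβ, by simp [hspan], by simp⟩
  obtain ⟨W, hW, hmax⟩ := C.exists_maximal hne
  have hgr : ∀ W' ∈ C, W' ≤ W := by
    intro W' hW'
    by_cases h : W' = W
    · exact h.le
    rcases hC (Finset.mem_coe.2 hW') (Finset.mem_coe.2 hW) h with h1 | h1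
    · exact h1
    · exact hmax hW' h1
  obtain ⟨γ, hβγ, hγ, hγs, hγW⟩ := ih (C.erase W).card
    (by rw [← hn]; exact Finset.card_erase_lt_of_mem hW) (C.erase W)
    (hC.mono (by intro x hx; exact Finset.mem_of_mem_erase (Finset.mem_coe.1 hx)))
    (fun W' hW' => had W' (Finset.mem_of_mem_erase hW')) rfl
  set Z := (C.erase W).sup id with hZ
  have hZW : Z ≤ W := Finset.sup_le (fun W' hW' => hgr W' (Finset.mem_of_mem_erase hW'))
  have hsup : C.sup id = W := by
    apply le_antisymm
    · exact Finset.sup_le (fun W' hW' => hgr W' hW')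
    · exact Finset.le_sup (f := id) hW
  obtain ⟨t, htsub, hγt, htspan, htli⟩ := exists_linearIndepOn_id_extension hγ
    (Set.subset_union_left (s := γ) (t := (W : Set U)))
  have hWt : W ≤ span k t := fun w hw => htspan (Set.mem_union_right _ hw)
  have hZγ : Z ≤ span k (γ ∩ W) := by
    refine Finset.sup_le (fun W' hW' => ?_)
    exact (hγW W' hW').trans (span_mono (Set.inter_subset_inter_right _
      (fun x hx => hgr W' (Finset.mem_of_mem_erase hW') hx)))
  have hkey : W ≤ span k (t ∩ W) := by
    intro w hw
    have h1 : w ∈ span k (γ ∪ (t \ γ)) := by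
      have : γ ∪ (t \ γ) = t := Set.union_sdiff_cancel hγt
      rw [this]
      exact hWt hw
    rw [span_union, mem_sup] at h1
    obtain ⟨a, ha, b, hb, rfl⟩ := h1
    have htW : t \ γ ⊆ (W : Set U) := by
      intro x hx
      rcases htsub hx.1 with h | h
      · exact absurd h hx.2
      · exact h
    have hbW : b ∈ W := (span_le.2 htW) hb
    have hbt : b ∈ span k (t ∩ W) :=
      span_mono (s := t \ γ) (t := t ∩ W) (fun x hx => ⟨hx.1, htW hx⟩) hb
    have haW : a ∈ W := by
      have := W.sub_mem hw hbW
      simpa using this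
    rw [hγs] at ha
    obtain ⟨x, hx, z, hz, rfl⟩ := mem_sup.1 ha
    have hzW : z ∈ W := hZW hz
    have hxW : x ∈ W := by
      have := W.sub_mem haW hzW
      simpa using this
    have hx' : x ∈ span k (t ∩ W) :=
      span_mono (Set.inter_subset_inter_left _ (hβγ.trans hγt)) (had W hW ⟨hxW, hx⟩)
    have hz' : z ∈ span k (t ∩ W) :=
      span_mono (Set.inter_subset_inter_left _ hγt) (hZγ hz)
    exact add_mem (add_mem hx' hz') hbt
  refine ⟨t, hβγ.trans hγt, htli, ?_, ?_⟩
  · rw [hsup]
    apply le_antisymm
    · refine (span_mono htsub).trans ?_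
      rw [span_union, hγs, span_eq]
      exact sup_le (sup_le_sup_left hZW _) le_sup_right
    · refine sup_le ?_ hWt
      rw [← hspan]
      exact span_mono (hβγ.trans hγt)
  · intro W' hW'
    by_cases h : W' = W
    · subst h; exact hkey
    · exact (hγW W' (Finset.mem_erase.2 ⟨h, hW'⟩)).trans
        (span_mono (Set.inter_subset_inter_left _ hγt))

/-- **5.4**: two finite chains of subspaces have a common adapted basis. -/
theorem exists_adapted_two_chains (C₁ C₂ : Finset (Submodule k U))
    (h₁ : IsChain (· ≤ ·) (C₁ : Set (Submodule k U)))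
    (h₂ : IsChain (· ≤ ·) (C₂ : Set (Submodule k U))) :
    ∃ β : Set U, LinearIndepOn k id β ∧ span k β = ⊤ ∧
      (∀ W ∈ C₁, W = span k (β ∩ W)) ∧ ∀ W ∈ C₂, W = span k (β ∩ W) := by
  classical
  have main : ∀ n : ℕ, ∀ C₁ : Finset (Submodule k U), C₁.card = n →
      IsChain (· ≤ ·) (C₁ : Set (Submodule k U)) →
      ∃ β : Set U, LinearIndepOn k id β ∧ span k β = C₁.sup id ∧
        (∀ X ∈ C₁, X ≤ span k (β ∩ X)) ∧
        ∀ W ∈ C₂, W ⊓ C₁.sup id ≤ span k (β ∩ W) := by
    intro n
    induction' n using Nat.strong_induction_on with n ih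
    intro C hn hC
    rcases C.eq_empty_or_nonempty with rfl | hne
    · refine ⟨∅, linearIndepOn_empty _ _, by simp, by simp, ?_⟩
      intro W _
      simp
    obtain ⟨X, hX, hmax⟩ := C.exists_maximal hne
    have hgr : ∀ W' ∈ C, W' ≤ X := by
      intro W' hW'
      by_cases h : W' = X
      · exact h.le
      rcases hC (Finset.mem_coe.2 hW') (Finset.mem_coe.2 hX) h with h1 | h1
      · exact h1
      · exact hmax hW' h1
    obtain ⟨γ, hγ, hγs, hγX, hγW⟩ := ih (C.erase X).card
      (by rw [← hn]; exact Finset.card_erase_lt_of_mem hX) (C.erase X) rfl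
      (hC.mono (by intro x hx; exact Finset.mem_of_mem_erase (Finset.mem_coe.1 hx)))
    set Z := (C.erase X).sup id with hZ
    have hZX : Z ≤ X := Finset.sup_le (fun W' hW' => hgr W' (Finset.mem_of_mem_erase hW'))
    have hsup : C.sup id = X := by
      apply le_antisymm
      · exact Finset.sup_le (fun W' hW' => hgr W' hW')
      · exact Finset.le_sup (f := id) hX
    -- chain inside X
    let D : Finset (Submodule k U) := insert X (C₂.image (fun W => W ⊓ X))
    have hD : IsChain (· ≤ ·) (D : Set (Submodule k U)) := by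
      intro a ha b hb hab
      simp only [D, Finset.coe_insert, Finset.coe_image, Set.mem_insert_iff, Set.mem_image,
        Finset.mem_coe] at ha hb
      rcases ha with rfl | ⟨W, hW, rfl⟩
      · rcases hb with rfl | ⟨W', hW', rfl⟩
        · exact absurd rfl hab
        · right; exact inf_le_right
      · rcases hb with rfl | ⟨W', hW', rfl⟩
        · left; exact inf_le_right
        · have hne' : W ≠ W' := by rintro rfl; exact hab rfl
          rcases h₂ (Finset.mem_coe.2 hW) (Finset.mem_coe.2 hW') hne' with h | h
          · left; exact inf_le_inf_right _ h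
          · right; exact inf_le_inf_right _ h
    obtain ⟨β, hγβ, hβ, hβs, hβW⟩ := extend_adapted Z γ hγ hγs D hD (by
      intro W hW
      simp only [D, Finset.mem_insert, Finset.mem_image] at hW
      rcases hW with rfl | ⟨W', hW', rfl⟩
      · refine inf_le_right.trans ?_
        rw [← hγs]
        refine span_mono (fun x hx => ⟨hx, hZX ?_⟩)
        rw [← hγs]; exact subset_span hx
      · intro x hx
        have hx1 : x ∈ W' ⊓ Z := ⟨hx.1.1, hx.2⟩
        have hx2 := hγW W' hW' hx1
        have h3 : γ ∩ (W' : Set U) ⊆ γ ∩ ((W' ⊓ X : Submodule k U) : Set U) := by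
          intro y hy
          refine ⟨hy.1, hy.2, hZX ?_⟩
          rw [← hγs]; exact subset_span hy.1
        exact span_mono h3 hx2)
    have hDsup : D.sup id = X := by
      apply le_antisymm
      · refine Finset.sup_le (fun W hW => ?_)
        simp only [D, Finset.mem_insert, Finset.mem_image] at hW
        rcases hW with rfl | ⟨W', _, rfl⟩
        · exact le_rfl
        · exact inf_le_right
      · exact Finset.le_sup (f := id) (Finset.mem_insert_self _ _)
    rw [hDsup] at hβs
    refine ⟨β, hβ, ?_, ?_, ?_⟩
    · rw [hβs, hsup]; exact sup_eq_right.2 hZX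
    · intro X' hX'
      by_cases h : X' = X
      · subst h; exact hβW X' (Finset.mem_insert_self _ _)
      · exact (hγX X' (Finset.mem_erase.2 ⟨h, hX'⟩)).trans
          (span_mono (Set.inter_subset_inter_left _ hγβ))
    · intro W hW
      rw [hsup]
      refine (hβW (W ⊓ X) (Finset.mem_insert_of_mem (Finset.mem_image_of_mem _ hW))).trans ?_
      exact span_mono (fun x hx => ⟨hx.1, hx.2.1⟩)
  obtain ⟨β, hβ, hβs, hβX, hβW⟩ := main _ (insert ⊤ C₁) rfl (by
    intro a ha b hb hab
    simp only [Finset.coe_insert, Set.mem_insert_iff, Finset.mem_coe] at ha hb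
    rcases ha with rfl | ha
    · right; exact le_top
    · rcases hb with rfl | hb
      · left; exact le_top
      · exact h₁ ha hb hab)
  have hs : (insert ⊤ C₁).sup id = (⊤ : Submodule k U) := by simp
  rw [hs] at hβs hβW
  refine ⟨β, hβ, hβs, ?_, ?_⟩
  · intro X hX
    exact le_antisymm (hβX X (Finset.mem_insert_of_mem hX)) (span_le.2 (fun x hx => hx.2))
  · intro W hW
    refine le_antisymm ?_ (span_le.2 (fun x hx => hx.2))
    have := hβW W hW
    rwa [inf_top_eq] at this

end ResW
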