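import Pool.Agent.Lib.MP_b525bf_h41.Aug

/-!
Tame projections, the group theory of section 2(e), chains `D^j A` and the lift lemma 5.1
(Theorem W of helper5).
-/

namespace ResW

open Submodule

section Tame

variable {k U G : Type*} [Field k] [AddCommGroup U] [Module k U] [Group G]
  (ρ : Representation k G U)

/-- `e_N = 1 - |N|⁻¹ ∑_{h ∈ N} h` -/
noncomputable def eproj (N : Subgroup G) [Fintype N] : U →ₗ[k] U :=
  1 - (Fintype.card N : k)⁻¹ • ∑ h : N, ρ (h : G)

variable {ρ}

theorem eproj_apply (N : Subgroup G) [Fintype N] (u : U) :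
    eproj ρ N u = u - (Fintype.card N : k)⁻¹ • ∑ h : N, ρ (h : G) u := by
  simp [eproj, LinearMap.sum_apply]

theorem eproj_mem (N : Subgroup G) [Fintype N] (hN : (Fintype.card N : k) ≠ 0) (u : U) :
    eproj ρ N u ∈ aug ρ N := by
  have h : eproj ρ N u = -((Fintype.card N : k)⁻¹ • ∑ h : N, (ρ (h : G) u - u)) := by
    rw [eproj_apply, Finset.sum_sub_distrib, Finset.sum_const, Finset.card_univ,
      smul_sub, ← Nat.cast_smul_eq_nsmul k, smul_smul, inv_mul_cancel₀ hN, one_smul]
    abel
  rw [h]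
  refine neg_mem (Submodule.smul_mem _ _ (Submodule.sum_mem _ (fun h _ => ?_)))
  exact sub_mem_aug h.2 u

theorem eproj_of_mem (N : Subgroup G) [Fintype N] {u : U} (hu : u ∈ aug ρ N) :
    eproj ρ N u = u := by
  have h : aug ρ N ≤ LinearMap.ker (∑ h : N, ρ (h : G)) := by
    rw [aug_le_iff]
    intro g hg u
    rw [LinearMap.mem_ker, map_sub, sub_eq_zero]
    simp only [LinearMap.sum_apply]
    have : ∀ h : N, ρ (h : G) (ρ g u) = ρ ((h * ⟨g, hg⟩ : N) : G) u := by
      intro h
      rw [← Module.End.mul_apply, ← map_mul]; rfl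
    simp only [this]
    exact Fintype.sum_equiv (Equiv.mulRight (⟨g, hg⟩ : N)) _ _ (fun h => rfl)
  have h1 := h hu
  rw [LinearMap.mem_ker, LinearMap.sum_apply] at h1
  rw [eproj_apply, h1, smul_zero, sub_zero]

theorem range_eproj (N : Subgroup G) [Fintype N] (hN : (Fintype.card N : k) ≠ 0) :
    LinearMap.range (eproj ρ N) = aug ρ N := by
  apply le_antisymm
  · rintro _ ⟨u, rfl⟩; exact eproj_mem N hN u
  · intro u hu; exact ⟨u, eproj_of_mem N hu⟩

/-- `e_N` commutes with everything normalising `N` -/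
theorem eproj_comm (N : Subgroup G) [Fintype N] {g : G}
    (hg : g ∈ Subgroup.normalizer (N : Set G)) (u : U) :
    eproj ρ N (ρ g u) = ρ g (eproj ρ N u) := by
  rw [eproj_apply, eproj_apply, map_sub, map_smul, map_sum]
  congr 2
  have hmem : ∀ h : G, h ∈ N ↔ g * h * g⁻¹ ∈ N := by
    intro h
    have := Subgroup.mem_normalizer_iff.1 hg h
    exact this
  let e : N ≃ N :=
    { toFun := fun h => ⟨g * h * g⁻¹, (hmem h).1 h.2⟩
      invFun := fun h => ⟨g⁻¹ * h * g, by
        rw [hmem]; simpa [mul_assoc] using h.2⟩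
      left_inv := by intro h; ext; simp [mul_assoc]
      right_inv := by intro h; ext; simp [mul_assoc] }
  symm
  refine Fintype.sum_equiv e _ _ (fun h => ?_)
  rw [← Module.End.mul_apply, ← Module.End.mul_apply, ← map_mul, ← map_mul]
  congr 2
  simp [e]

end Tame

section GroupTheory

variable {G : Type*} [Group G] [Finite G] {p : ℕ} [hp : Fact p.Prime]

/-- 2(e) -/
theorem le_of_dvd_card {P N : Subgroup G} (hG : ¬ p ^ 2 ∣ Nat.card G) (hP : Nat.card P = p)
    (hPN : P ≤ Subgroup.normalizer (N : Set G)) (hN : p ∣ Nat.card N) : P ≤ N := by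
  classical
  by_contra hcon
  -- `P ⊓ N = ⊥`
  have hdisj : ∀ x ∈ P, x ∈ N → x = 1 := by
    by_contra hne
    push Not at hne
    obtain ⟨x, hxP, hxN, hx1⟩ := hne
    apply hcon
    have hz : Subgroup.zpowers x = P := by
      apply Subgroup.eq_of_le_of_card_ge (by rwa [Subgroup.zpowers_le])
      rw [Nat.card_zpowers]
      have h1 : orderOf x ∣ p := by
        rw [← hP]
        have := orderOf_dvd_natCard (⟨x, hxP⟩ : P)
        rwa [← Subgroup.orderOf_coe] at this
      rcases (Nat.dvd_prime hp.out).1 h1 with h | h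
      · exact absurd (orderOf_eq_one_iff.1 h) hx1
      · rw [h, hP]
    rw [← hz, Subgroup.zpowers_le]
    exact hxN
  set H := N ⊔ P with hH
  have hNH : N ≤ H := le_sup_left
  have hPH : P ≤ H := le_sup_right
  have hHn : H ≤ Subgroup.normalizer (N : Set G) := sup_le Subgroup.le_normalizer hPN
  haveI : (N.subgroupOf H).Normal := Subgroup.normal_subgroupOf_of_le_normalizer hHn
  let f : P →* H ⧸ (N.subgroupOf H) := (QuotientGroup.mk' _).comp (Subgroup.inclusion hPH)
  have hf : Function.Injective f := by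
    rw [injective_iff_map_eq_one]
    intro x hx
    have : (Subgroup.inclusion hPH x) ∈ N.subgroupOf H := by
      rw [← QuotientGroup.eq_one_iff]; exact hx
    rw [Subgroup.mem_subgroupOf] at this
    exact Subtype.ext (hdisj x x.2 this)
  have h1 : p ∣ Nat.card (H ⧸ (N.subgroupOf H)) := by
    rw [← hP]; exact Subgroup.card_dvd_of_injective f hf
  have h2 : Nat.card (N.subgroupOf H) = Nat.card N := by
    exact Nat.card_congr (Subgroup.subgroupOfEquivOfLe hNH).toEquiv
  have h3 : Nat.card H = Nat.card (H ⧸ (N.subgroupOf H)) * Nat.card (N.subgroupOf H) :=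
    Subgroup.card_eq_card_quotient_mul_card_subgroup _
  apply hG
  refine dvd_trans ?_ (Subgroup.card_subgroup_dvd_card H)
  rw [h3, h2, pow_two]
  exact mul_dvd_mul h1 hN

/-- a `p`-subgroup has order `1` or `p` if `p² ∤ |G|` -/
theorem card_of_isPGroup {H : Subgroup G} (hG : ¬ p ^ 2 ∣ Nat.card G) (hH : IsPGroup p H) :
    H = ⊥ ∨ Nat.card H = p := by
  obtain ⟨n, hn⟩ := IsPGroup.iff_card.1 hH
  rcases n with _ | _ | n
  · left; exact Subgroup.card_eq_one.1 (by simpa using hn)
  · right; simpa using hn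
  · exfalso
    apply hG
    refine dvd_trans ?_ (Subgroup.card_subgroup_dvd_card H)
    rw [hn]
    exact pow_dvd_pow _ (by omega)

end GroupTheory

section Lift

variable {k U : Type*} [Field k] [AddCommGroup U] [Module k U] (D : U →ₗ[k] U)

/-- the flag `v_A(0) = U`, `v_A(m+1) = D^m A` -/
def dflag (A : Submodule k U) : ℕ → Submodule k U
  | 0 => ⊤
  | m + 1 => A.map (D ^ m)

variable {D}

@[simp] theorem dflag_zero (A : Submodule k U) : dflag D A 0 = ⊤ := rfl
@[simp] theorem dflag_succ (A : Submodule k U) (m : ℕ) :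
    dflag D A (m + 1) = A.map (D ^ m) := rfl

theorem map_map_pow (A : Submodule k U) (m : ℕ) :
    (A.map (D ^ m)).map D = A.map (D ^ (m + 1)) := by
  rw [← Submodule.map_comp, pow_succ']
  rfl

theorem dflag_map_le {A : Submodule k U} (hA : LinearMap.range D ≤ A) (m : ℕ) :
    (dflag D A m).map D ≤ dflag D A (m + 1) := by
  cases m with
  | zero =>
    rw [dflag_zero, dflag_succ, Submodule.map_top, pow_zero, Module.End.one_eq_id,
      Submodule.map_id]
    exact hA
  | succ m => rw [dflag_succ, dflag_succ, map_map_pow]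

/-- the chain property: `D^j' A' ≤ D^j A` for `j < j'` -/
theorem pow_chain {A A' : Submodule k U} (hA : LinearMap.range D ≤ A) {j j' : ℕ} (h : j < j') :
    A'.map (D ^ j') ≤ A.map (D ^ j) := by
  obtain ⟨i, rfl⟩ := Nat.exists_eq_add_of_lt h
  have : D ^ (j + i + 1) = (D ^ j) ∘ₗ (D ∘ₗ (D ^ i)) := by
    rw [add_assoc, pow_add, pow_succ']; rfl
  rw [this, Submodule.map_comp]
  refine Submodule.map_mono (le_trans ?_ hA)
  rw [Submodule.map_comp]
  rintro _ ⟨x, _, rfl⟩
  exact ⟨x, rfl⟩

theorem dflag_antitone {A : Submodule k U} (hA : LinearMap.range D ≤ A)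
    : Antitone (dflag D A) := by
  refine antitone_nat_of_succ_le (fun m => ?_)
  cases m with
  | zero => simp
  | succ m => exact pow_chain hA (Nat.lt_succ_self m)

theorem dflag_eventually_bot {A : Submodule k U} {n : ℕ} (hD : D ^ n = 0) {m : ℕ} (hm : n < m) :
    dflag D A m = ⊥ := by
  obtain ⟨i, rfl⟩ := Nat.exists_eq_add_of_lt hm
  rw [dflag_succ, pow_add, hD, zero_mul]
  exact Submodule.map_zero _

/-- comparability of `D^j A` and `D^j' A'` -/
theorem pow_comparable {A A' : Submodule k U} (hA : LinearMap.range D ≤ A)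
    (hA' : LinearMap.range D ≤ A') (hAA' : A ≤ A' ∨ A' ≤ A) (j j' : ℕ) :
    A.map (D ^ j) ≤ A'.map (D ^ j') ∨ A'.map (D ^ j') ≤ A.map (D ^ j) := by
  rcases lt_trichotomy j j' with h | rfl | h
  · right; exact pow_chain hA h
  · rcases hAA' with h | h
    · left; exact Submodule.map_mono h
    · right; exact Submodule.map_mono h
  · left; exact pow_chain hA' h

/-- **5.1 LIFT LEMMA** (pure linear algebra form). `T` is a finite index set of flags
`v_{A_i}`, `A_i ⊇ D U`, pairwise comparable and comparable with `Y`; `e` is a linear map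
commuting with `D`, fixing `z`, and preserving `Y` and all `A_i` (a tame projection, or `1`). -/
theorem lift_lemma {ι : Type*} (T : Finset ι) (A : ι → Submodule k U) (Y : Submodule k U)
    (hA : ∀ i ∈ T, LinearMap.range D ≤ A i) (hY : LinearMap.range D ≤ Y)
    (hcomp : ∀ i ∈ T, ∀ j ∈ T, A i ≤ A j ∨ A j ≤ A i)
    (hcompY : ∀ i ∈ T, A i ≤ Y ∨ Y ≤ A i)
    (e : U →ₗ[k] U) (heD : ∀ u, e (D u) = D (e u)) (heY : Y.map e ≤ Y)
    (heA : ∀ i ∈ T, (A i).map e ≤ A i)
    {z : U} (hez : e z = z) (hzY : z ∈ Y.map D) (m : ι → ℕ)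
    (hz : ∀ i ∈ T, z ∈ dflag D (A i) (m i)) :
    ∃ y ∈ Y, D y = z ∧ (∀ i ∈ T, 1 ≤ m i → y ∈ dflag D (A i) (m i - 1)) ∧
      y ∈ LinearMap.range e := by
  classical
  -- the smallest among `Y` and the `D^(m_i-2) A_i`, `m_i ≥ 2`
  have key : ∀ T' : Finset ι, T' ⊆ T → ∃ (B : Submodule k U) (j : ℕ),
      LinearMap.range D ≤ B ∧ (∀ i ∈ T, A i ≤ B ∨ B ≤ A i) ∧ B.map e ≤ B ∧
      B.map (D ^ j) ≤ Y ∧
      (∀ i ∈ T', 2 ≤ m i → B.map (D ^ j) ≤ (A i).map (D ^ (m i - 2))) ∧
      z ∈ (B.map (D ^ j)).map D := by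
    intro T'
    induction T' using Finset.induction_on with
    | empty =>
      intro _
      refine ⟨Y, 0, hY, hcompY, heY, ?_, by simp, ?_⟩
      · simp [Module.End.one_eq_id]
      · simpa [Module.End.one_eq_id] using hzY
    | insert i T' hi ih =>
      intro hT'
      have hiT : i ∈ T := hT' (Finset.mem_insert_self _ _)
      obtain ⟨B, j, hB, hBc, heB, hBY, hBT, hzB⟩ :=
        ih (fun x hx => hT' (Finset.mem_insert_of_mem hx))
      by_cases h2 : 2 ≤ m i
      · rcases pow_comparable hB (hA i hiT) (hBc i hiT).symm j (m i - 2) with h | h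
        · refine ⟨B, j, hB, hBc, heB, hBY, ?_, hzB⟩
          intro i' hi' hm
          rcases Finset.mem_insert.1 hi' with rfl | hi'
          · exact h
          · exact hBT i' hi' hm
        · refine ⟨A i, m i - 2, hA i hiT, fun i' hi' => hcomp i' hi' i hiT, heA i hiT,
            h.trans hBY, ?_, ?_⟩
          · intro i' hi' hm
            rcases Finset.mem_insert.1 hi' with rfl | hi'
            · exact le_rfl
            · exact h.trans (hBT i' hi' hm)
          · rw [map_map_pow]
            have := hz i hiT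
            have hm : m i = (m i - 2 + 1) + 1 := by omega
            rw [hm, dflag_succ] at this
            exact this
      · refine ⟨B, j, hB, hBc, heB, hBY, ?_, hzB⟩
        intro i' hi' hm
        rcases Finset.mem_insert.1 hi' with rfl | hi'
        · exact absurd hm h2
        · exact hBT i' hi' hm
  obtain ⟨B, j, hB, hBc, heB, hBY, hBT, hzB⟩ := key T subset_rfl
  obtain ⟨y₀, hy₀, rfl⟩ := hzB
  have hepow : ∀ n : ℕ, ∀ u, e ((D ^ n) u) = (D ^ n) (e u) := by
    intro n
    induction n with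
    | zero => intro u; simp
    | succ n ih =>
      intro u
      rw [pow_succ', Module.End.mul_apply, Module.End.mul_apply, heD, ih]
  have hey : e y₀ ∈ B.map (D ^ j) := by
    obtain ⟨b, hb, rfl⟩ := hy₀
    rw [hepow]
    exact ⟨e b, heB ⟨b, hb, rfl⟩, rfl⟩
  refine ⟨e y₀, hBY hey, ?_, ?_, ⟨y₀, rfl⟩⟩
  · rw [← heD, hez]
  · intro i hi h1
    by_cases h2 : 2 ≤ m i
    · have h3 := hBT i hi h2 hey
      have hm : m i - 1 = (m i - 2) + 1 := by omega
      rw [hm, dflag_succ]
      exact h3
    · have : m i - 1 = 0 := by omega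
      rw [this]; simp

end Lift

section DNil

variable {k U G : Type*} [Field k] [AddCommGroup U] [Module k U] [Group G]
  {ρ : Representation k G U} {p : ℕ} [hp : Fact p.Prime] [CharP k p]

/-- `(s-1)^p = 0` for `s^p = 1` -/
theorem sub_one_pow_eq_zero {s : G} (hs : s ^ p = 1) : (ρ s - 1) ^ p = 0 := by
  have h1 : (ρ s) ^ p = 1 := by rw [← map_pow, hs, map_one]
  have h2 : ((Polynomial.X - 1 : Polynomial k) ^ p) = Polynomial.X ^ p - 1 := by
    rw [sub_pow_char, one_pow]
  have h3 := congrArg (Polynomial.aeval (ρ s)) h2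
  simpa [h1] using h3

end DNil

end ResW
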