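import Mathlib

/-!
Linear algebra of augmentation submodules (Theorem W of helper5, section 2).
-/

namespace ResW

open Submodule

section Aug

variable {k U G : Type*} [Field k] [AddCommGroup U] [Module k U] [Group G]
  (ρ : Representation k G U)

/-- `A_N = ∑_{h ∈ N} (h - 1) U`. -/
def aug (N : Subgroup G) : Submodule k U :=
  ⨆ h : N, LinearMap.range (ρ (h : G) - 1)

variable {ρ}

theorem sub_mem_aug {N : Subgroup G} {h : G} (hh : h ∈ N) (u : U) :
    ρ h u - u ∈ aug ρ N := by
  have : ρ h u - u ∈ LinearMap.range (ρ ((⟨h, hh⟩ : N) : G) - 1) := ⟨u, by simp⟩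
  exact (le_iSup (fun h : N => LinearMap.range (ρ (h : G) - 1)) ⟨h, hh⟩) this

theorem aug_le_iff {N : Subgroup G} {V : Submodule k U} :
    aug ρ N ≤ V ↔ ∀ h ∈ N, ∀ u, ρ h u - u ∈ V := by
  constructor
  · intro h g hg u
    exact h (sub_mem_aug hg u)
  · intro h
    refine iSup_le (fun g => ?_)
    rintro _ ⟨u, rfl⟩
    simpa using h g g.2 u

/-- (a) -/
theorem aug_mono {N N' : Subgroup G} (h : N ≤ N') : aug ρ N ≤ aug ρ N' :=
  aug_le_iff.2 (fun _ hg u => sub_mem_aug (h hg) u)

/-- (b) -/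
theorem aug_closure (X : Set G) :
    aug ρ (Subgroup.closure X) = ⨆ x : X, LinearMap.range (ρ (x : G) - 1) := by
  apply le_antisymm
  · rw [aug_le_iff]
    intro h hh
    induction hh using Subgroup.closure_induction with
    | mem x hx =>
      intro u
      exact (le_iSup (fun h : X => LinearMap.range (ρ (h : G) - 1)) ⟨x, hx⟩) ⟨u, by simp⟩
    | one => intro u; simp
    | mul x y _ _ hx hy =>
      intro u
      have h1 := hx (ρ y u)
      have h2 := hy u
      have := add_mem h1 h2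
      simpa [map_mul] using this
    | inv x _ hx =>
      intro u
      have h1 := hx (ρ x⁻¹ u)
      have h3 : ρ x (ρ x⁻¹ u) = u := by
        rw [← Module.End.mul_apply, ← map_mul]; simp
      rw [h3] at h1
      have := neg_mem h1
      simpa using this
  · refine iSup_le (fun x => ?_)
    rintro _ ⟨u, rfl⟩
    simpa using sub_mem_aug (ρ := ρ) (Subgroup.subset_closure x.2) u

theorem aug_zpowers (s : G) :
    aug ρ (Subgroup.zpowers s) = LinearMap.range (ρ s - 1) := by
  rw [Subgroup.zpowers_eq_closure, aug_closure]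
  apply le_antisymm
  · refine iSup_le (fun x => ?_)
    have hx : (x : G) = s := x.2
    rw [hx]
  · exact le_iSup (fun x : ({s} : Set G) => LinearMap.range (ρ (x : G) - 1)) ⟨s, rfl⟩

theorem aug_bot : aug ρ (⊥ : Subgroup G) = ⊥ := by
  rw [eq_bot_iff, aug_le_iff]
  intro h hh u
  rw [Subgroup.mem_bot] at hh
  subst hh
  simp

/-- `ρ g` maps `A_N` onto `A_{g N g⁻¹}`. -/
theorem map_aug_le (g : G) (N N' : Subgroup G) (h : ∀ x ∈ N, g * x * g⁻¹ ∈ N') :
    (aug ρ N).map (ρ g) ≤ aug ρ N' := by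
  rw [Submodule.map_le_iff_le_comap, aug_le_iff]
  intro x hx u
  rw [Submodule.mem_comap, map_sub]
  have h1 := sub_mem_aug (ρ := ρ) (h x hx) (ρ g u)
  have h2 : ρ (g * x * g⁻¹) (ρ g u) = ρ g (ρ x u) := by
    rw [← Module.End.mul_apply, ← Module.End.mul_apply, ← map_mul, ← map_mul]
    congr 2
    group
  rwa [h2] at h1

end Aug

section Perfect

variable {G : Type*} [Group G]

/-- the subgroup generated by the elements of `H` of order prime to `p` -/
def pperf (p : ℕ) (H : Subgroup G) : Subgroup G :=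
  Subgroup.closure {x | x ∈ H ∧ (orderOf x).Coprime p}

/-- `p`-perfect subgroups -/
def PPerfect (p : ℕ) (H : Subgroup G) : Prop := pperf p H = H

theorem pperf_le (p : ℕ) (H : Subgroup G) : pperf p H ≤ H := by
  rw [pperf, Subgroup.closure_le]
  exact fun x hx => hx.1

theorem mem_pperf {p : ℕ} {H : Subgroup G} {x : G} (hx : x ∈ H) (ho : (orderOf x).Coprime p) :
    x ∈ pperf p H := Subgroup.subset_closure ⟨hx, ho⟩

theorem pperf_mono {p : ℕ} {H K : Subgroup G} (h : H ≤ K) : pperf p H ≤ pperf p K := by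
  refine Subgroup.closure_mono (fun x hx => ⟨h hx.1, hx.2⟩)

theorem pperf_pperf (p : ℕ) (H : Subgroup G) : PPerfect p (pperf p H) := by
  refine le_antisymm (pperf_le _ _) ?_
  conv_lhs => rw [pperf]
  rw [Subgroup.closure_le]
  exact fun x hx => mem_pperf (mem_pperf hx.1 hx.2) hx.2

theorem PPerfect.le_pperf {p : ℕ} {N H : Subgroup G} (hN : PPerfect p N) (h : N ≤ H) :
    N ≤ pperf p H := by
  rw [← hN]; exact pperf_mono h

/-- `O^p(H)` is normalised by everything normalising `H`; more generally conjugation-equivariant. -/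
theorem conj_mem_pperf {p : ℕ} {H K : Subgroup G} {g : G} (h : ∀ x ∈ H, g * x * g⁻¹ ∈ K) :
    ∀ x ∈ pperf p H, g * x * g⁻¹ ∈ pperf p K := by
  intro x hx
  have h1 : pperf p H ≤ (pperf p K).comap (MulAut.conj g).toMonoidHom := by
    rw [pperf, Subgroup.closure_le]
    intro y hy
    simp only [Subgroup.coe_comap, Set.mem_preimage, SetLike.mem_coe]
    refine mem_pperf (by simpa using h y hy.1) ?_
    have : orderOf ((MulAut.conj g).toMonoidHom y) = orderOf y :=
      orderOf_injective _ (MulAut.conj g).injective y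
    rw [this]; exact hy.2
  simpa using h1 hx

/-- `O^p(H) = 1` iff `H` is a `p`-group -/
theorem isPGroup_of_pperf_eq_bot {p : ℕ} [hp : Fact p.Prime] [Finite G] {H : Subgroup G}
    (h : pperf p H = ⊥) : IsPGroup p H := by
  rw [IsPGroup.iff_orderOf]
  intro g
  have ho : 0 < orderOf (g : G) := orderOf_pos _
  obtain ⟨a, m, hm, hom⟩ := Nat.exists_eq_pow_mul_and_not_dvd ho.ne' p hp.out.ne_one
  have h1 : orderOf ((g : G) ^ p ^ a) = m := by
    rw [orderOf_pow' _ (pow_ne_zero _ hp.out.ne_zero), hom]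
    rw [Nat.gcd_eq_right (Dvd.intro _ rfl)]
    exact Nat.mul_div_cancel_left _ (pow_pos hp.out.pos _)
  have h2 : (g : G) ^ p ^ a ∈ pperf p H := by
    refine mem_pperf (H.pow_mem g.2 _) ?_
    rw [h1]
    exact (Nat.Coprime.symm ((Nat.Prime.coprime_iff_not_dvd hp.out).2 hm))
  rw [h, Subgroup.mem_bot] at h2
  rw [h2, orderOf_one] at h1
  refine ⟨a, ?_⟩
  rw [← Subgroup.orderOf_coe, hom, ← h1, mul_one]

end Perfect

section PPerfAug

variable {k U G : Type*} [Field k] [AddCommGroup U] [Module k U] [Group G]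
  {ρ : Representation k G U}

/-- an element of order prime to the characteristic: `(x-1)U = (x-1)²U` -/
theorem range_sub_one_le_of_ne {x : G} (ho : (orderOf x : k) ≠ 0) :
    LinearMap.range (ρ x - 1) ≤ (LinearMap.range (ρ x - 1)).map (ρ x - 1) := by
  set r := orderOf x with hr
  have hrk : (r : k) ≠ 0 := ho
  have hxr : (ρ x) ^ r = 1 := by rw [← map_pow, pow_orderOf_eq_one, map_one]
  -- geometric sums
  have hgeom : ∀ n : ℕ, (ρ x - 1) * (∑ i ∈ Finset.range n, (ρ x) ^ i) = (ρ x) ^ n - 1 := by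
    intro n
    exact mul_geom_sum (ρ x) n
  rintro _ ⟨u, rfl⟩
  -- w = ∑_{i<r} (x^i) (x-1) u = 0
  have h0 : (∑ i ∈ Finset.range r, (ρ x) ^ i) ((ρ x - 1) u) = 0 := by
    have := geom_sum_mul (ρ x) r
    rw [hxr, sub_self] at this
    rw [← Module.End.mul_apply, this]; rfl
  set w : U := ∑ i ∈ Finset.range r, (∑ j ∈ Finset.range i, (ρ x) ^ j) u with hw
  have h1 : (ρ x - 1) ((ρ x - 1) w) = - ((r : k) • ((ρ x - 1) u)) := by
    have h2 : (ρ x - 1) w = ∑ i ∈ Finset.range r, ((ρ x) ^ i - 1) u := by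
      rw [hw, map_sum]
      refine Finset.sum_congr rfl (fun i _ => ?_)
      rw [← Module.End.mul_apply, hgeom]
    rw [h2, map_sum]
    have h3 : ∀ i ∈ Finset.range r, (ρ x - 1) (((ρ x) ^ i - 1) u) =
        ((ρ x) ^ i) ((ρ x - 1) u) - (ρ x - 1) u := by
      intro i _
      have hc : (ρ x - 1) * ((ρ x) ^ i - 1) = (ρ x) ^ i * (ρ x - 1) - (ρ x - 1) := by
        have : ρ x * (ρ x) ^ i = (ρ x) ^ i * ρ x := (Commute.self_pow (ρ x) i).eq
        simp only [mul_sub, sub_mul, one_mul, mul_one, this]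
      have := congrArg (fun f : U →ₗ[k] U => f u) hc
      simpa using this
    rw [Finset.sum_congr rfl h3, Finset.sum_sub_distrib]
    have h4 : ∑ i ∈ Finset.range r, ((ρ x) ^ i) ((ρ x - 1) u) = 0 := by
      rw [← h0]; simp [LinearMap.sum_apply]
    rw [h4, Finset.sum_const, Finset.card_range, zero_sub, Nat.cast_smul_eq_nsmul]
  refine ⟨(ρ x - 1) (-((r : k)⁻¹ • w)), ⟨_, rfl⟩, ?_⟩
  rw [map_neg, map_neg, map_smul, map_smul, h1, smul_neg, neg_neg, smul_smul,
    inv_mul_cancel₀ hrk, one_smul]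

/-- an element of order prime to the characteristic: `(x-1)U = (x-1)²U` -/
theorem range_sub_one_le {p : ℕ} [hp : Fact p.Prime] [CharP k p] {x : G}
    (ho : (orderOf x).Coprime p) :
    LinearMap.range (ρ x - 1) ≤ (LinearMap.range (ρ x - 1)).map (ρ x - 1) := by
  refine range_sub_one_le_of_ne ?_
  intro h0
  rw [CharP.cast_eq_zero_iff k p] at h0
  have : p ∣ Nat.gcd (orderOf x) p := Nat.dvd_gcd h0 dvd_rfl
  rw [ho] at this
  exact hp.out.one_lt.ne' (Nat.dvd_one.1 this)

/-- (c) for `N` `p`-perfect, `A_N = ∑ (h-1) A_N` -/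
theorem aug_eq_of_pperfect {p : ℕ} [hp : Fact p.Prime] [CharP k p] {N : Subgroup G}
    (hN : PPerfect p N) :
    aug ρ N = ⨆ h : N, (aug ρ N).map (ρ (h : G) - 1) := by
  apply le_antisymm
  · conv_lhs => rw [← hN, pperf, aug_closure]
    refine iSup_le (fun x => ?_)
    refine (range_sub_one_le (p := p) x.2.2).trans ?_
    refine le_trans ?_ (le_iSup (fun h : N => (aug ρ N).map (ρ (h : G) - 1)) ⟨x, x.2.1⟩)
    refine Submodule.map_mono ?_
    rintro _ ⟨u, rfl⟩
    simpa using sub_mem_aug (ρ := ρ) x.2.1 u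
  · refine iSup_le (fun h => ?_)
    rintro _ ⟨u, _, rfl⟩
    simpa using sub_mem_aug (ρ := ρ) h.2 u

end PPerfAug

end ResW
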